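import Mathlib
import Pool.Agent.H813.SpiralFinal

/-!
# Slowly winding arms inscribe every cyclic quadrilateral

Let `q 0, q 1, q 2, q 3` be the vertices, in cyclic order, of a cyclic quadrilateral `Q`.  There is
`r < 1`, depending only on `Q`, such that every plane set `J` (for instance a Jordan curve) in
which no small quadrilaterals near `p` are inscribed that are directly similar to `Q` has the
following property: every spiral arm `p + ρ(θ) exp(± i θ)` in `J`, with `ρ` positive, continuous,
nonincreasing, tending to `0` and with `ρ(θ + 2π) ≥ r ρ(θ)` for large `θ`, decays geometrically: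
`ρ(θ + 2πN) ≤ c ρ(θ)` for some `N ≥ 1`, some `c < 1` and all large `θ`.

So a Jordan curve that avoids some cyclic quadrilateral contains no arm of this kind of infinite
length, and none with `ρ(θ + 2π)/ρ(θ) → 1`.

Proof.  For quadrilaterals that are nearly centred at `p` and have their vertices on prescribed
turns of the arm the squared radii of the vertices satisfy one linear relation, with coefficients
given by the affine dependence of the four vertices, and the polar angles are those of the
vertices up to small errors.  The theorem of Poincaré and Miranda in dimension four gives an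
inscribed copy as soon as the corresponding combination of the four squared radii takes both
signs robustly.  Otherwise it has a constant sign for every choice of the turns, and integrating
it in the angle bounds areas swept by the arm against each other, which forces geometric decay.
-/

set_option autoImplicit false

namespace Pool.Agent.Results.MP_2fd4e2_co.SlowSpirals

open Complex Set Filter Topology

theorem result {q : Fin 4 → ℂ} (hinj : Function.Injective q)
    (hcirc : ∃ (m : ℂ) (R : ℝ), 0 < R ∧ ∀ i, ‖q i - m‖ = R)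
    (hcross : (openSegment ℝ (q 0) (q 2) ∩ openSegment ℝ (q 1) (q 3)).Nonempty) :
    ∃ r : ℝ, r < 1 ∧ ∀ (J : Set ℂ) (p : ℂ) (o : ℝ) (ρ : ℝ → ℝ) (θ₀ : ℝ),
      (o = 1 ∨ o = -1) → ContinuousOn ρ (Ici θ₀) → AntitoneOn ρ (Ici θ₀) →
      (∀ θ, θ₀ ≤ θ → 0 < ρ θ) → Tendsto ρ atTop (𝓝 0) →
      (∀ θ, θ₀ ≤ θ → p + ρ θ * exp (((o * θ : ℝ) : ℂ) * I) ∈ J) →
      (∀ᶠ θ in atTop, r * ρ θ ≤ ρ (θ + 2 * Real.pi)) →
      (∀ δ : ℝ, 0 < δ → ∃ a b : ℂ, a ≠ 0 ∧ ∀ i, a * q i + b ∈ J ∧ ‖a * q i + b - p‖ < δ) ∨
      ∃ N : ℕ, 1 ≤ N ∧ ∃ c : ℝ, c < 1 ∧ ∀ᶠ θ in atTop,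
        ρ (θ + 2 * Real.pi * N) ≤ c * ρ θ := by
  obtain ⟨r, hr, h⟩ := Pool.Agent.H813.Spiral.uniform_decay (q := q) ⟨hinj, hcirc, hcross⟩
  exact ⟨r, hr, fun J p o ρ θ₀ ho h1 h2 h3 h4 h5 h6 => h J p o ρ θ₀ ho ⟨h1, h2, h3, h4⟩ h5 h6⟩

end Pool.Agent.Results.MP_2fd4e2_co.SlowSpirals
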